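import Pool.Agent.Results.MP_122e00_nt.PowerSavingShifts
import Pool.Agent.TH872.GQ.Fam

/-!
# Correlations of the divisor functions with a power saving, for almost all shifts among the quadratic values at integers
with restricted digits

Definitions used: from `Pool.Agent.Results.MP_122e00_nt.PowerSavingShifts`: the divisor functions `d`, the sums `D`, the
Ramanujan sums `ram`, the densities `κ`, the singular series `𝔖`, `Density`, `G`, `main`, `Asymp`. In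
`Pool.Agent.TH872.GQ`: `S b E k`: the integers below `b ^ k` whose `i`-th digit in base `b` lies in `E i`, for all
`i < k`; `value a β c n = c + a n ^ 2 + β n`.
-/

set_option autoImplicit false

namespace Pool.Agent.Results.MP_122e00_nt.QuadraticShifts

open Finset Polynomial Pool.Agent.TH872.GQ Pool.Agent.Results.MP_122e00_nt.PowerSavingShifts

lemma asymp_mono (r N : ℕ) (hN : 1 ≤ N) (P : ℕ → ℝ[X]) (T : ℤ → ℝ[X]) (θ θ' η : ℝ) (hθ : θ' ≤ θ) (h : ℤ)
    (hA : Asymp r N P T θ η h) : Asymp r N P T θ' η h := by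
  intro x hx
  obtain ⟨h1, h2⟩ := hA x hx
  exact ⟨h1.trans (Real.rpow_le_rpow_of_exponent_le (by exact_mod_cast hN) (by linarith)), h2⟩

open Classical in
/-- Let `r ≥ 2`. There are polynomials `P_q` (`q ≥ 1`) and `T_h` (`h ≠ 0`) with the following properties.

(0) `P_q` is the density of `d_r(n) e(b n / q)`, `(b, q) = 1`; it has degree `r - 1`, leading coefficient
`κ_{r - 1}(q) / (r - 1)!`, and coefficients `O(q ^ (ε - 1))`. For `h ≠ 0` the series `G_h(u, v) = ∑ c_q(h) P_q(u) P_q(v)`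
converges absolutely; `T_h(u) + T_h'(u) = G_h(u, u)`; `T_h` has degree `2 r - 2` and leading coefficient
`𝔖_r(h) / ((r - 1)!) ^ 2`.

(1) Let `b ≥ 2`, integers `a ≠ 0` and `β`, and `B` be fixed. There is `θ > 0` such that for every `0 < η ≤ θ` and every
large `k`: let `E 0, …, E (k - 1)` be arbitrary sets of at least two digits in base `b`, let `S` be the set of the
integers below `b ^ k` whose `i`-th digit lies in `E i` for all `i < k`, let `c` be an arbitrary integer with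
`|c| ≤ B b ^ (2 k)`, and let `b ^ (2 k) ≤ N ≤ b ^ ((1 + θ) 2 k)`. Then for all `n ∈ S`, except for at most
`N ^ (-θ) #S` of them, the shift `h = c + a n ^ 2 + β n` is zero or satisfies, for ALL `x ≤ N`:
`D_r(x; h) = ∑ G_h(log n, log(n + h)) + O(N ^ (1 - θ))` (the sum over `n ≤ x` with `n + h ≥ 1`) and, if
`|h| ≤ N ^ (1 - η)`, `D_r(x; h) = x T_h(log x) + O(N ^ (1 - η / 8))`, with implied constants `1`. -/
theorem result (r : ℕ) (hr : 2 ≤ r) : ∃ (P : ℕ → ℝ[X]) (T : ℤ → ℝ[X]),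
    (Density r P ∧ (∀ q, 1 ≤ q → (P q).natDegree = r - 1 ∧ (P q).leadingCoeff = κ (r - 1) q / ((r - 1).factorial : ℝ)) ∧
      ∀ ε : ℝ, 0 < ε → ∃ C : ℝ, ∀ q i : ℕ, 1 ≤ q → |(P q).coeff i| ≤ C * (q : ℝ) ^ (ε - 1)) ∧
    (∀ h : ℤ, h ≠ 0 → (∀ u v : ℝ, Summable (fun q : ℕ => (ram (q + 1) h : ℝ) * ((P (q + 1)).eval u * (P (q + 1)).eval v))) ∧
      (∀ u : ℝ, (T h).eval u + (derivative (T h)).eval u = G P h u u) ∧
      (T h).natDegree = 2 * r - 2 ∧ (T h).leadingCoeff = 𝔖 r h / ((r - 1).factorial : ℝ) ^ 2) ∧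
    ∀ (b B : ℕ) (a β : ℤ), 2 ≤ b → a ≠ 0 → ∃ θ : ℝ, 0 < θ ∧ ∀ η : ℝ, 0 < η → η ≤ θ → ∃ k₀ : ℕ, ∀ k : ℕ, k₀ ≤ k →
      ∀ E : ℕ → Finset ℕ, (∀ i < k, E i ⊆ range b ∧ 2 ≤ (E i).card) → ∀ c : ℤ, |c| ≤ B * (b : ℤ) ^ (2 * k) →
      ∀ N : ℕ, b ^ (2 * k) ≤ N → (N : ℝ) ≤ (b : ℝ) ^ ((1 + θ) * (2 * k)) →
      (((S b E k).filter (fun n => value a β c n ≠ 0 ∧ ¬ Asymp r N P T θ η (value a β c n))).card : ℝ) ≤
        (N : ℝ) ^ (-θ) * (S b E k).card := by
  obtain ⟨P, T, hA, hB, h1, _⟩ := Pool.Agent.Results.MP_122e00_nt.PowerSavingShifts.result r hr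
  refine ⟨P, T, hA, hB, fun b B a β hb ha => ?_⟩
  obtain ⟨p, C, hC, hE⟩ := quad_energy b hb a β ha
  obtain ⟨B', hB'⟩ : ∃ B' : ℕ, B' = B + (a.natAbs + β.natAbs) := ⟨_, rfl⟩
  obtain ⟨θ₀, hθ₀, h2⟩ := h1 p B'
  refine ⟨θ₀ / 2, by linarith, fun η hη hηθ => ?_⟩
  obtain ⟨N₀, h3⟩ := h2 η hη (by linarith)
  have hb1 : (1 : ℝ) < b := by exact_mod_cast (by omega : 1 < b)
  have hb0 : (0 : ℝ) < b := by linarith
  -- `C ≤ b ^ (θ₀ k)` for large `k`
  obtain ⟨k1, hk1⟩ := exists_nat_ge (Real.log C / (θ₀ * Real.log b))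
  have hlb : 0 < Real.log b := Real.log_pos hb1
  refine ⟨N₀ + k1 + 1, fun k hk E hEd c hc N hN1 hN2 => ?_⟩
  have hkb : k < b ^ (2 * k) := by
    calc k ≤ 2 * k := by omega
      _ < b ^ (2 * k) := Nat.lt_pow_self (by omega)
  have hN1r : (b : ℝ) ^ (2 * k) ≤ N := by exact_mod_cast hN1
  have hNpos : 1 ≤ N := by omega
  have hNr : (1 : ℝ) ≤ N := by exact_mod_cast hNpos
  have hbk : (0 : ℝ) < (b : ℝ) ^ (2 * k) := by positivity
  have hCk : C ≤ (b : ℝ) ^ (θ₀ * k) := by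
    have e1 : Real.log C / (θ₀ * Real.log b) ≤ k := hk1.trans (by exact_mod_cast (by omega : k1 ≤ k))
    rw [div_le_iff₀ (by positivity)] at e1
    rw [← Real.log_le_log_iff hC (by positivity), Real.log_rpow hb0]
    linarith
  have hfc : Fintype.card {n // n ∈ S b E k} = (S b E k).card := Fintype.card_coe _
  have hval : ∀ n, value a β c n = c + Pool.Agent.TH872.Sq.qv a β n := value_eq a β c
  have r1 := h3 N (by omega) {n // n ∈ S b E k} (fun i => value a β c i.1) (fun i => by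
    have e1 : (i.1 : ℕ) < b ^ k := by
      have h := i.2
      unfold S at h
      exact mem_range.1 (mem_filter.1 h).1
    have e2 := Pool.Agent.TH872.Sq.qv_le a β b k i.1 e1
    rw [hval]
    refine (abs_add_le _ _).trans ?_
    have e3 : ((b : ℤ)) ^ (2 * k) ≤ N := by exact_mod_cast hN1
    have e4 : (0 : ℤ) ≤ (B' : ℤ) := by positivity
    calc |c| + |Pool.Agent.TH872.Sq.qv a β i.1| ≤ (B' : ℤ) * (b : ℤ) ^ (2 * k) := by
          rw [hB']
          push_cast at e2 ⊢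
          linarith
      _ ≤ (B' : ℤ) * N := mul_le_mul_of_nonneg_left e3 e4) (by
    have e1 := hE k E hEd c
    obtain ⟨Z, hZ⟩ : ∃ Z : ℝ, Z = (Fintype.card {n // n ∈ S b E k} : ℝ) ^ (2 * p) := ⟨_, rfl⟩
    have hZ0 : 0 ≤ Z := by rw [hZ]; positivity
    have e2 : (energy p (fun i : {n // n ∈ S b E k} => value a β c i.1) : ℝ) * (b : ℝ) ^ (2 * k) ≤ C * Z := by
      have e3 : (fun i : {n // n ∈ S b E k} => value a β c i.1) =
          (fun i : {n // n ∈ S b E k} => c + Pool.Agent.TH872.Sq.qv a β i.1) := by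
        funext i
        exact hval i.1
      rw [e3, hZ]
      have e4 := e1
      push_cast at e4
      exact e4
    rw [← hZ]
    have e5 : (N : ℝ) ≤ (b : ℝ) ^ (2 * k) * (b : ℝ) ^ (θ₀ * k) := by
      refine hN2.trans (le_of_eq ?_)
      rw [← Real.rpow_natCast, ← Real.rpow_add hb0]
      congr 1
      push_cast
      ring
    have e6 : (b : ℝ) ^ (θ₀ * k) * (b : ℝ) ^ (θ₀ * k) ≤ (N : ℝ) ^ θ₀ := by
      calc (b : ℝ) ^ (θ₀ * k) * (b : ℝ) ^ (θ₀ * k) = ((b : ℝ) ^ (2 * k)) ^ θ₀ := by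
            rw [← Real.rpow_add hb0, ← Real.rpow_natCast, ← Real.rpow_mul hb0.le]
            congr 1
            push_cast
            ring
        _ ≤ (N : ℝ) ^ θ₀ := Real.rpow_le_rpow hbk.le hN1r hθ₀.le
    obtain ⟨M, hM⟩ : ∃ M, M = (energy p (fun i : {n // n ∈ S b E k} => value a β c i.1) : ℝ) := ⟨_, rfl⟩
    have hM0 : 0 ≤ M := by rw [hM]; exact Nat.cast_nonneg _
    rw [← hM] at e2 ⊢
    have hq0 : 0 < (b : ℝ) ^ (θ₀ * k) := by positivity
    calc M * N ≤ M * ((b : ℝ) ^ (2 * k) * (b : ℝ) ^ (θ₀ * k)) := mul_le_mul_of_nonneg_left e5 hM0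
      _ = (M * (b : ℝ) ^ (2 * k)) * (b : ℝ) ^ (θ₀ * k) := by ring
      _ ≤ (C * Z) * (b : ℝ) ^ (θ₀ * k) := mul_le_mul_of_nonneg_right e2 hq0.le
      _ ≤ ((b : ℝ) ^ (θ₀ * k) * Z) * (b : ℝ) ^ (θ₀ * k) :=
          mul_le_mul_of_nonneg_right (mul_le_mul_of_nonneg_right hCk hZ0) hq0.le
      _ = ((b : ℝ) ^ (θ₀ * k) * (b : ℝ) ^ (θ₀ * k)) * Z := by ring
      _ ≤ (N : ℝ) ^ θ₀ * Z := mul_le_mul_of_nonneg_right e6 hZ0)
  rw [hfc] at r1
  have r2 := conv (S b E k) (fun n => value a β c n ≠ 0 ∧ ¬ Asymp r N P T (θ₀ / 2) η (value a β c n)) _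
    (fun i hi => ⟨hi.1, fun hg => hi.2 (asymp_mono r N hNpos P T θ₀ (θ₀ / 2) η (by linarith) _ hg)⟩) _ r1
  refine r2.trans ?_
  apply mul_le_mul_of_nonneg_right _ (Nat.cast_nonneg _)
  exact Real.rpow_le_rpow_of_exponent_le hNr (by linarith)

end Pool.Agent.Results.MP_122e00_nt.QuadraticShifts
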